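import Pool.Agent.U697.TRp

/-!
# Q2: the sum modulo `p²`
-/

set_option autoImplicit false

namespace Pool.Agent.Results.MP_bba144_nt.ModSquareQTwo

open Finset Polynomial

/-- `T_m(b,c)`: the coefficient of `x^m` in `(x² + b x + c)^m`. -/
noncomputable def T (b c : ℤ) (m : ℕ) : ℤ := ((X ^ 2 + C b * X + C c) ^ m : ℤ[X]).coeff m

/-- `u ≡ v` modulo `p^r`: the difference is `p^r` times a fraction whose denominator is not divisible by `p`. -/
def Cong (p r : ℕ) (u v : ℚ) : Prop := ∃ (n : ℤ) (d : ℕ), ¬ p ∣ d ∧ u - v = (p : ℚ) ^ r * (n / d)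

lemma T_eq (b c : ℤ) (m : ℕ) : T b (c ^ 2) m = Pool.Agent.U697.TR.Tn (b - 2 * c) c m := by
  have e1 : (X ^ 2 + C b * X + C (c ^ 2) : ℤ[X]) = (X + C c) ^ 2 + C (b - 2 * c) * X := by
    simp only [map_sub, map_mul, map_pow]
    rw [show (C (2 : ℤ) : ℤ[X]) = 2 from rfl]
    ring
  unfold T Pool.Agent.U697.TR.Tn
  rw [e1, add_pow, finsetSum_coeff]
  apply sum_congr rfl
  intro k hk
  have hk' : k ≤ m := by have := mem_range.mp hk; omega
  have e2 : ((X + C c : ℤ[X]) ^ 2) ^ k * (C (b - 2 * c) * X) ^ (m - k) * ((m.choose k : ℕ) : ℤ[X])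
      = C ((b - 2 * c) ^ (m - k) * (m.choose k : ℤ)) * ((X + C c) ^ (2 * k) * X ^ (m - k)) := by
    rw [mul_pow, ← pow_mul]
    simp only [map_mul, map_pow, map_natCast]
    ring
  rw [e2, coeff_C_mul, coeff_mul_X_pow', if_pos (by omega), coeff_X_add_C_pow,
    show m - (m - k) = k by omega, show 2 * k - k = k by omega, Nat.centralBinom_eq_two_mul_choose]
  ring

/-- **Q2.** For all integers `b, c` and every odd prime `p` not dividing `b (b - 2c)`,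
`∑_{j<p} (8 c j + 4 c + b) T_j(b,c²)² / (b-2c)^(2j) ≡ p (b + 2c) ((b² - 4c²)/p)` modulo `p²`. -/
theorem result (p : ℕ) [Fact p.Prime] (hp2 : p ≠ 2) (b c : ℤ) (h : ¬ (p : ℤ) ∣ b * (b - 2 * c)) :
    Cong p 2 (∑ j ∈ range p, (8 * (c : ℚ) * j + 4 * c + b) * ((T b (c ^ 2) j : ℚ) ^ 2 / ((b : ℚ) - 2 * c) ^ (2 * j)))
      (p * (b + 2 * c) * legendreSym p (b ^ 2 - 4 * c ^ 2)) := by
  have hp : p.Prime := Fact.out
  have hpp := hp.pos
  set β : ℤ := b - 2 * c with hβ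
  have hb : ¬ (p : ℤ) ∣ β + 2 * c := by
    intro h1
    exact h (Dvd.dvd.mul_right (by rwa [hβ, sub_add_cancel] at h1) _)
  have hβp : ¬ (p : ℤ) ∣ β := fun h1 => h (Dvd.dvd.mul_left h1 _)
  have hβ0 : β ≠ 0 := by
    intro h1
    exact hβp (h1 ▸ dvd_zero _)
  obtain ⟨x, hx⟩ := Pool.Agent.U697.TR.main p hp2 β c hb
  obtain ⟨y, hy⟩ : (p : ℤ) ∣ β ^ (2 * (p - 1)) - 1 := by
    rw [← ZMod.intCast_zmod_eq_zero_iff_dvd]
    push_cast
    have h1 : (β : ZMod p) ≠ 0 := by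
      rw [Ne, ZMod.intCast_zmod_eq_zero_iff_dvd]
      exact hβp
    rw [mul_comm, pow_mul, ZMod.pow_card_sub_one_eq_one h1, one_pow, sub_self]
  have e0 : β * (β + 4 * c) = b ^ 2 - 4 * c ^ 2 := by rw [hβ]; ring
  rw [e0] at hx
  set L := legendreSym p (b ^ 2 - 4 * c ^ 2)
  refine ⟨x - (b + 2 * c) * L * y, β.natAbs ^ (2 * (p - 1)), fun h1 => ?_, ?_⟩
  · exact hβp (Int.natCast_dvd.2 (hp.dvd_of_dvd_pow h1))
  · have e1 : (((β.natAbs ^ (2 * (p - 1)) : ℕ) : ℤ) : ℚ) = ((β : ℚ)) ^ (2 * (p - 1)) := by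
      have e7 : ((β.natAbs ^ (2 * (p - 1)) : ℕ) : ℤ) = β ^ (2 * (p - 1)) := by
        rw [Nat.cast_pow, pow_mul, Int.natAbs_sq, ← pow_mul]
      rw [e7]
      push_cast
      rfl
    have e1' : ((β.natAbs ^ (2 * (p - 1)) : ℕ) : ℚ) = ((β : ℚ)) ^ (2 * (p - 1)) := by
      rw [← e1]; norm_cast
    have hq : (β : ℚ) ≠ 0 := by exact_mod_cast hβ0
    have e2 : (∑ j ∈ range p, (8 * (c : ℚ) * j + 4 * c + b) * ((T b (c ^ 2) j : ℚ) ^ 2 /
        ((b : ℚ) - 2 * c) ^ (2 * j))) * (β : ℚ) ^ (2 * (p - 1)) =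
        ((∑ j ∈ range p, (8 * c * j + 6 * c + β) * Pool.Agent.U697.TR.Tn β c j ^ 2 * β ^ (2 * (p - 1 - j)) : ℤ) : ℚ) := by
      push_cast
      rw [sum_mul]
      refine sum_congr rfl fun j hj => ?_
      have hj' := mem_range.1 hj
      rw [T_eq, ← hβ, show ((b : ℚ) - 2 * c) = (β : ℚ) by rw [hβ]; push_cast; ring,
        show 2 * (p - 1) = 2 * (p - 1 - j) + 2 * j by omega, pow_add]
      have hb' : (β : ℚ) = b - 2 * c := by rw [hβ]; push_cast; ring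
      have hq2 : (β : ℚ) ^ (2 * j) ≠ 0 := pow_ne_zero _ hq
      have e3 : (8 * (c : ℚ) * j + 4 * c + b) = (8 * c * j + 6 * c + β) := by rw [hb']; ring
      rw [e3]
      field_simp
    rw [e1', ← mul_div_assoc, eq_div_iff (pow_ne_zero _ hq), sub_mul, e2]
    have e4 := congrArg (Int.cast : ℤ → ℚ) hx
    have e5 := congrArg (Int.cast : ℤ → ℚ) hy
    have hb' : (β : ℚ) = b - 2 * c := by rw [hβ]; push_cast; ring
    push_cast at e4 e5 ⊢
    have e6 : (β : ℚ) + 4 * c = b + 2 * c := by rw [hb']; ring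
    rw [e6] at e4
    linear_combination e4 - p * (b + 2 * c) * L * e5

end Pool.Agent.Results.MP_bba144_nt.ModSquareQTwo
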